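import Pool.Agent.PVD.StmtsL

/-! MP_e25c73_gt, block L, row LMU. -/

set_option autoImplicit false
open MeasureTheory

namespace Pool.Agent.PVD.L.H20

theorem log_integrable {f : ℝ → ℝ} (hf : Continuous f) {a : ℝ} (ha : 0 < a)
    (hlo : ∀ t, 0 < t → t ≤ 1 → a * t ≤ f t) :
    IntervalIntegrable (fun t => Real.log (f t)) volume 0 1 := by
  obtain ⟨C, hC⟩ := (isCompact_Icc : IsCompact (Set.Icc (0 : ℝ) 1)).exists_bound_of_continuousOn
    hf.continuousOn
  have hg : IntervalIntegrable (fun t : ℝ => |Real.log (max C 1)| + |Real.log a| + |Real.log t|)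
      volume 0 1 :=
    (intervalIntegrable_const).add (intervalIntegral.intervalIntegrable_log' (a := 0) (b := 1)).abs
  refine hg.mono_fun' ?_ ?_
  · exact (Real.measurable_log.comp hf.measurable).aestronglyMeasurable
  · rw [Filter.EventuallyLE, ae_restrict_iff' measurableSet_uIoc]
    refine Filter.Eventually.of_forall fun t ht => ?_
    rw [Set.uIoc_of_le (zero_le_one), Set.mem_Ioc] at ht
    have h1 : 0 < a * t := mul_pos ha ht.1
    have h2 := hlo t ht.1 ht.2
    have h3 : f t ≤ max C 1 := by
      have h4 := hC t ⟨ht.1.le, ht.2⟩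
      rw [Real.norm_eq_abs] at h4
      exact (le_abs_self _).trans (h4.trans (le_max_left _ _))
    have h5 : Real.log (a * t) ≤ Real.log (f t) := Real.log_le_log h1 h2
    have h6 : Real.log (f t) ≤ Real.log (max C 1) := Real.log_le_log (h1.trans_le h2) h3
    rw [Real.log_mul ha.ne' ht.1.ne'] at h5
    rw [Real.norm_eq_abs, abs_le]
    have h7 := neg_abs_le (Real.log a)
    have h8 := neg_abs_le (Real.log t)
    have h9 := le_abs_self (Real.log (max C 1))
    have h10 := abs_nonneg (Real.log a)
    have h11 := abs_nonneg (Real.log t)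
    have h12 := abs_nonneg (Real.log (max C 1))
    constructor <;> linarith

theorem lmu : LmuStmt := by
  intro e q sg y u1 u2 v h0 h1 hq hy hy1 hs hb
  obtain ⟨l, hl⟩ : ∃ l, l = lam e q sg y u1 u2 v := ⟨_, rfl⟩
  have hl0 : 0 < l := by
    rw [hl]
    exact Real.exp_pos _
  have hbeta := beta_pos h0 h1 hy
  have hfm : ∀ t, fm e (muL e q sg y u1 u2 v) t = fm e (nuL e q sg y u1 u2) t / l := by
    intro t
    unfold fm
    rw [Finset.sum_div]
    refine Finset.sum_congr rfl fun i _ => ?_
    show nuL e q sg y u1 u2 i / lam e q sg y u1 u2 v * cl e i t = _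
    rw [← hl]
    ring
  have hlow : ∀ t, 0 < t → t ≤ 1 →
      (1 + q) * Real.exp u1 * t ≤ fm e (nuL e q sg y u1 u2) t := by
    intro t ht0 ht1
    rw [fm_nuL]
    have h2 := cl_nonneg h0 (by linarith : e < 1) ht0.le ht1 2
    have h3 := cl_nonneg h0 (by linarith : e < 1) ht0.le ht1 3
    have h4 : 0 ≤ (beta e y - ss e q sg y) * Real.exp u2 * cl e 2 t :=
      mul_nonneg (mul_nonneg (by linarith) (Real.exp_pos _).le) h2
    have h5 : 0 ≤ ss e q sg y * cl e 3 t := mul_nonneg hs.le h3
    linarith
  have ha : 0 < (1 + q) * Real.exp u1 := mul_pos (by linarith) (Real.exp_pos _)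
  have hint := log_integrable (fm_cont e (nuL e q sg y u1 u2)) ha hlow
  refine ⟨?_, ?_, ?_, ?_, ?_, ?_⟩
  · intro i
    rw [← hl]
    unfold Hm
    rw [← intervalIntegral.integral_const_mul]
    refine intervalIntegral.integral_congr fun t _ => ?_
    show cl e i t / fm e (muL e q sg y u1 u2 v) t = l * (cl e i t / fm e (nuL e q sg y u1 u2) t)
    rw [hfm, div_div_eq_mul_div]
    ring
  · have hP : Ph e (muL e q sg y u1 u2 v) = Ph e (nuL e q sg y u1 u2) + Real.log l := by
      unfold Ph
      have h2 : ∫ t in (0:ℝ)..1, Real.log (fm e (muL e q sg y u1 u2 v) t) =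
          ∫ t in (0:ℝ)..1, (Real.log (fm e (nuL e q sg y u1 u2) t) - Real.log l) := by
        refine intervalIntegral.integral_congr_ae ?_
        refine Filter.Eventually.of_forall fun t ht => ?_
        rw [Set.uIoc_of_le (zero_le_one), Set.mem_Ioc] at ht
        rw [hfm, Real.log_div _ hl0.ne']
        exact ((mul_pos ha ht.1).trans_le (hlow t ht.1 ht.2)).ne'
      rw [h2, intervalIntegral.integral_sub hint intervalIntegrable_const,
        intervalIntegral.integral_const]
      simp only [sub_zero, smul_eq_mul, one_mul]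
      ring
    rw [hP, hl]
    unfold lam
    rw [Real.log_exp]
    ring
  · show nuL e q sg y u1 u2 0 / lam e q sg y u1 u2 v = 0
    have : nuL e q sg y u1 u2 0 = 0 := rfl
    rw [this, zero_div]
  · show 0 < nuL e q sg y u1 u2 1 / lam e q sg y u1 u2 v
    rw [← hl]
    have : nuL e q sg y u1 u2 1 = (1 + q) * Real.exp u1 := rfl
    rw [this]
    exact div_pos ha hl0
  · show 0 < nuL e q sg y u1 u2 2 / lam e q sg y u1 u2 v
    rw [← hl]
    have : nuL e q sg y u1 u2 2 = (beta e y - ss e q sg y) * Real.exp u2 := rfl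
    rw [this]
    exact div_pos (mul_pos (by linarith) (Real.exp_pos _)) hl0
  · show 0 < nuL e q sg y u1 u2 3 / lam e q sg y u1 u2 v
    rw [← hl]
    have : nuL e q sg y u1 u2 3 = ss e q sg y := rfl
    rw [this]
    exact div_pos hs hl0

end Pool.Agent.PVD.L.H20
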