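import Pool.Agent.PVD.StmtsM2
import Pool.Agent.Helper53_TrInd.Miranda

/-! MP_e25c73_gt, block M2, row MFN: assembly of block M. -/

set_option autoImplicit false
open MeasureTheory Filter Topology Set

namespace Pool.Agent.PVD.M.H20

open Pool.Agent.PVD.L

theorem mfn (hPMC : PmcStmt) (hMCT : MctStmt) (hMEV : MevStmt) (hMZR : MzrStmt) : MfnStmt := by
  rintro ⟨k, hk, q, d, kap, hq0, hq1, hd0, hd1, hkap, hall⟩
  have hL : LimOK k q d kap := ⟨hk, hq0, hq1, hd0, hd1, hkap, hall⟩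
  obtain ⟨m0, hm0⟩ := hMEV k q d kap hL
  have hm1 : m0 ≤ max m0 2 := le_max_left _ _
  have hm2 : 2 ≤ max m0 2 := le_max_right _ _
  obtain ⟨m, hm⟩ : ∃ m, m = max m0 2 := ⟨_, rfl⟩
  rw [← hm] at hm1 hm2
  have hE := hm0 m hm1
  obtain ⟨x, hx⟩ := Pool.Agent.Helper53_TrInd.miranda
    (fun (i : Fin 5) (x : Icc (0 : Fin 5 → ℝ) 1) => FF k m q d x.1 i)
    (fun i => (continuousOn_iff_continuous_domRestrict.1 (hMCT k q d kap hL m hm2 i)))
    (fun i x h => ((hE x.1 x.2).1 i).1 h) (fun i x h => ((hE x.1 x.2).1 i).2 h)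
  obtain ⟨hP, -⟩ := hPMC k q d kap hL
  obtain ⟨-, -, hlm, hK, hLp⟩ := hP x.1 x.2
  exact hMZR k m q d kap hL hm2 x.1 x.2 hK hLp hlm (hE x.1 x.2).2 hx

end Pool.Agent.PVD.M.H20
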