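import Pool.Agent.PVD.StmtsM1

/-! MP_e25c73_gt, block M1, row SUP: upper bound of the normalised logarithm. -/

set_option autoImplicit false
open MeasureTheory Filter Topology

namespace Pool.Agent.PVD.M.H20

open Pool.Agent.PVD.L

theorem sup (hUBA : UbaStmt) (hBLF : BlfStmt) : SupStmt := by
  intro e he0 he2 A m hA hm n h hn hV
  obtain ⟨-, -, -, -, h5, h6, h7, -⟩ := hBLF e he0 he2 m
  have hnR : (0 : ℝ) < n := by exact_mod_cast hn
  have hnd0 : ∀ j : ℕ, 0 < nd n j := fun j => by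
    unfold nd
    positivity
  have hnd1 : ∀ j : ℕ, j < n → nd n j ≤ 1 := fun j hj => by
    unfold nd
    rw [div_le_one (by positivity)]
    have : (j : ℝ) ≤ n := by exact_mod_cast hj.le
    linarith
  have hf : ∀ j : ℕ, j < n → 0 < fm e m (nd n j) := fun j hj => by
    rcases hA with rfl | rfl
    · exact h5 hm _ (hnd0 j).le (hnd1 j hj)
    · exact h6 hm _ (hnd0 j) (hnd1 j hj)
  have hfA : ∀ j : Fin n,
      fA A (fun (i : Fin 4) (j : Fin n) => cl e i (nd n j)) m j = fm e m (nd n j) := fun j =>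
    h7 A hm (nd n j)
  have hm0 : ∀ i ∈ A, 0 ≤ m i := fun i hi => (hm.1 i hi).le
  have hU := hUBA n A (fun (i : Fin 4) (j : Fin n) => cl e i (nd n j)) h m (n : ℝ) hnR hm0
    (fun j => by rw [hfA j]; exact hf j j.2)
  have hP : ∏ j : Fin n, ((n : ℝ) * fA A (fun (i : Fin 4) (j : Fin n) => cl e i (nd n j)) m j)⁻¹ =
      ∏ j : Fin n, ((n : ℝ) * fm e m (nd n j))⁻¹ :=
    Finset.prod_congr rfl fun j _ => by rw [hfA j]
  rw [hP] at hU
  have hpos : 0 < ∏ j : Fin n, ((n : ℝ) * fm e m (nd n j))⁻¹ :=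
    Finset.prod_pos fun j _ => inv_pos.2 (mul_pos hnR (hf j j.2))
  have hV2 : VA n e A h ≤ Real.exp ((n : ℝ) * ∑ i ∈ A, m i * h i) *
      ∏ j : Fin n, ((n : ℝ) * fm e m (nd n j))⁻¹ :=
    ENNReal.toReal_le_of_le_ofReal (by positivity) hU
  have hlogP : Real.log (∏ j : Fin n, ((n : ℝ) * fm e m (nd n j))⁻¹) =
      -((n : ℝ) * Real.log n) - ∑ j ∈ Finset.range n, Real.log (fm e m (nd n j)) := by
    rw [Real.log_prod (fun (j : Fin n) _ => (inv_pos.2 (mul_pos hnR (hf j j.2))).ne')]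
    have : ∀ j : Fin n, Real.log (((n : ℝ) * fm e m (nd n j))⁻¹) =
        -Real.log n - Real.log (fm e m (nd n j)) := fun j => by
      rw [Real.log_inv, Real.log_mul hnR.ne' (hf j j.2).ne']
      ring
    rw [Finset.sum_congr rfl fun j _ => this j, Finset.sum_sub_distrib, Finset.sum_const,
      Finset.card_univ, Fintype.card_fin, nsmul_eq_mul,
      Finset.sum_range (fun j => Real.log (fm e m (nd n j)))]
    ring
  have hnn : (0 : ℝ) < (n : ℝ) ^ n := by positivity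
  have hlog : Real.log ((n : ℝ) ^ n * VA n e A h) ≤
      (n : ℝ) * ∑ i ∈ A, m i * h i - ∑ j ∈ Finset.range n, Real.log (fm e m (nd n j)) := by
    rw [Real.log_mul hnn.ne' hV.ne', Real.log_pow]
    have h1 := Real.log_le_log hV hV2
    rw [Real.log_mul (Real.exp_pos _).ne' hpos.ne', Real.log_exp, hlogP] at h1
    linarith
  have h2 := mul_le_mul_of_nonneg_left hlog (inv_pos.2 hnR).le
  have h3 : (n : ℝ)⁻¹ * ((n : ℝ) * ∑ i ∈ A, m i * h i -
      ∑ j ∈ Finset.range n, Real.log (fm e m (nd n j))) =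
      ∑ i ∈ A, m i * h i - (n : ℝ)⁻¹ * ∑ j ∈ Finset.range n, Real.log (fm e m (nd n j)) := by
    rw [mul_sub, inv_mul_cancel_left₀ hnR.ne']
  rw [h3] at h2
  exact h2

end Pool.Agent.PVD.M.H20
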